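import Mathlib

namespace Pool.Agent.H.MP_9d59e9_gt

abbrev V (n : ℕ) := Fin n → ℝ

abbrev Met (n : ℕ) := V n → Matrix (Fin n) (Fin n) ℝ

abbrev Ten (n k : ℕ) := V n → Fin n → (Fin k → Fin n) → ℝ

noncomputable def pd {n : ℕ} (i : Fin n) (f : V n → ℝ) (x : V n) : ℝ :=
  fderiv ℝ f x (Pi.single i 1)

noncomputable def chr {n : ℕ} (g : Met n) (x : V n) (a i j : Fin n) : ℝ :=
  ∑ l, (g x)⁻¹ a l *
    (pd i (fun z => g z j l) x + pd j (fun z => g z i l) x - pd l (fun z => g z i j) x) / 2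

noncomputable def riem {n : ℕ} (g : Met n) : Ten n 3 := fun x a I =>
  pd (I 1) (fun z => chr g z a (I 2) (I 0)) x - pd (I 2) (fun z => chr g z a (I 1) (I 0)) x
    + ∑ l, (chr g x a (I 1) l * chr g x l (I 2) (I 0) - chr g x a (I 2) l * chr g x l (I 1) (I 0))

noncomputable def cov {n k : ℕ} (g : Met n) (T : Ten n k) : Ten n (k + 1) := fun x a I =>
  pd (I 0) (fun z => T z a (Fin.tail I)) x + ∑ l, chr g x a (I 0) l * T x l (Fin.tail I)
    - ∑ s, ∑ l, chr g x l (I 0) (Fin.tail I s) * T x a (Function.update (Fin.tail I) s l)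

noncomputable def u (x : V 4) : ℝ := Real.exp (-2 * x 0)

noncomputable def w (x : V 4) : ℝ := Real.exp (2 * x 0)

noncomputable def v (x : V 4) : ℝ := Real.exp (2 * x 2)

def dl (i j : Fin 4) : ℝ := if i = j then 1 else 0

lemma u_pos (x : V 4) : 0 < u x := Real.exp_pos _
lemma w_pos (x : V 4) : 0 < w x := Real.exp_pos _
lemma v_pos (x : V 4) : 0 < v x := Real.exp_pos _

lemma uw (x : V 4) : u x * w x = 1 := by
  unfold u w
  rw [← Real.exp_add]
  simp

lemma w_eq (x : V 4) : w x = (u x)⁻¹ := by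
  have := uw x
  have h := (u_pos x).ne'
  field_simp
  linarith

@[fun_prop] lemma cd_u {k : WithTop ℕ∞} : ContDiff ℝ k u := by
  unfold u
  fun_prop
@[fun_prop] lemma cd_w {k : WithTop ℕ∞} : ContDiff ℝ k w := by
  unfold w
  fun_prop
@[fun_prop] lemma cd_v {k : WithTop ℕ∞} : ContDiff ℝ k v := by
  unfold v
  fun_prop
@[fun_prop] lemma df_u (x : V 4) : DifferentiableAt ℝ u x := by
  unfold u
  fun_prop
@[fun_prop] lemma df_w (x : V 4) : DifferentiableAt ℝ w x := by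
  unfold w
  fun_prop
@[fun_prop] lemma df_v (x : V 4) : DifferentiableAt ℝ v x := by
  unfold v
  fun_prop

lemma pd_exp (c : ℝ) (j m : Fin 4) (x : V 4) :
    pd m (fun z : V 4 => Real.exp (c * z j)) x = c * dl m j * Real.exp (c * x j) := by
  have h1 : HasFDerivAt (fun z : V 4 => z j)
      (ContinuousLinearMap.proj (R := ℝ) (φ := fun _ : Fin 4 => ℝ) j) x :=
    hasFDerivAt_apply j x
  have h := (h1.const_mul c).exp
  unfold pd
  rw [h.fderiv]
  simp only [smul_apply, ContinuousLinearMap.proj_apply, smul_eq_mul, dl,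
    Pi.single_apply]
  by_cases hm : m = j
  · subst hm
    simp [mul_comm]
  · have : ¬ j = m := fun h => hm h.symm
    simp [hm, this]

lemma pd_u (m : Fin 4) (x : V 4) : pd m u x = -2 * dl m 0 * u x := pd_exp (-2) 0 m x
lemma pd_w (m : Fin 4) (x : V 4) : pd m w x = 2 * dl m 0 * w x := pd_exp 2 0 m x
lemma pd_v (m : Fin 4) (x : V 4) : pd m v x = 2 * dl m 2 * v x := pd_exp 2 2 m x

lemma pd_const (m : Fin 4) (c : ℝ) (x : V 4) : pd m (fun _ => c) x = 0 := by
  simp [pd]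

lemma pd_add (m : Fin 4) (f g : V 4 → ℝ) (x : V 4) (hf : DifferentiableAt ℝ f x)
    (hg : DifferentiableAt ℝ g x) : pd m (fun z => f z + g z) x = pd m f x + pd m g x := by
  unfold pd
  rw [fderiv_fun_add hf hg]
  rfl

lemma pd_sub (m : Fin 4) (f g : V 4 → ℝ) (x : V 4) (hf : DifferentiableAt ℝ f x)
    (hg : DifferentiableAt ℝ g x) : pd m (fun z => f z - g z) x = pd m f x - pd m g x := by
  unfold pd
  rw [fderiv_fun_sub hf hg]
  rfl

lemma pd_mul (m : Fin 4) (f g : V 4 → ℝ) (x : V 4) (hf : DifferentiableAt ℝ f x)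
    (hg : DifferentiableAt ℝ g x) :
    pd m (fun z => f z * g z) x = pd m f x * g x + f x * pd m g x := by
  unfold pd
  rw [fderiv_fun_mul hf hg]
  simp only [add_apply, smul_apply, smul_eq_mul]
  ring

lemma pd_cmul (m : Fin 4) (c : ℝ) (g : V 4 → ℝ) (x : V 4) (hg : DifferentiableAt ℝ g x) :
    pd m (fun z => c * g z) x = c * pd m g x := by
  rw [pd_mul m (fun _ => c) g x (by fun_prop) hg, pd_const]
  ring

lemma pd_upow (m : Fin 4) (k : ℕ) (x : V 4) :
    pd m (fun z => u z ^ k) x = -2 * k * dl m 0 * u x ^ k := by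
  induction k with
  | zero => simp [pd_const]
  | succ k ih =>
    simp only [pow_succ]
    rw [pd_mul m (fun z => u z ^ k) u x (by fun_prop) (by fun_prop), ih, pd_u]
    push_cast
    ring

noncomputable def hh (x : V 4) (i j : Fin 4) : ℝ :=
  dl i 0 * dl j 0 * w x + dl i 1 * dl j 1 * u x ^ 3

noncomputable def kk (x : V 4) (i j : Fin 4) : ℝ :=
  dl i 2 * dl j 2 + dl i 3 * dl j 3 * v x

noncomputable def G : Met 4 := fun x => Matrix.of fun i j => hh x i j + kk x i j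

@[fun_prop] lemma df_hh (i j : Fin 4) (x : V 4) : DifferentiableAt ℝ (fun z => hh z i j) x := by
  unfold hh
  fun_prop
@[fun_prop] lemma df_kk (i j : Fin 4) (x : V 4) : DifferentiableAt ℝ (fun z => kk z i j) x := by
  unfold kk
  fun_prop

lemma pd_hh (m i j : Fin 4) (x : V 4) : pd m (fun z => hh z i j) x =
    dl m 0 * (2 * dl i 0 * dl j 0 * w x - 6 * dl i 1 * dl j 1 * u x ^ 3) := by
  unfold hh
  rw [pd_add _ _ _ _ (by fun_prop) (by fun_prop), pd_cmul _ _ _ _ (by fun_prop),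
    pd_cmul _ _ _ _ (by fun_prop), pd_w, pd_upow]
  push_cast
  ring

lemma pd_kk (m i j : Fin 4) (x : V 4) : pd m (fun z => kk z i j) x =
    dl m 2 * (2 * dl i 3 * dl j 3 * v x) := by
  unfold kk
  rw [pd_add _ _ _ _ (by fun_prop) (by fun_prop), pd_const,
    pd_cmul _ _ _ _ (by fun_prop), pd_v]
  ring

lemma G_diag (x : V 4) : G x = Matrix.diagonal ![w x, u x ^ 3, 1, v x] := by
  ext i j
  fin_cases i <;> fin_cases j <;> simp [G, hh, kk, dl]

lemma G_inv (x : V 4) : (G x)⁻¹ = Matrix.diagonal ![u x, w x ^ 3, 1, (v x)⁻¹] := by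
  apply Matrix.inv_eq_right_inv
  rw [G_diag, Matrix.diagonal_mul_diagonal, ← Matrix.diagonal_one]
  congr 1
  ext i
  have h1 := uw x
  have h2 := (v_pos x).ne'
  fin_cases i
  · simp
    linarith
  · simp
    rw [← mul_pow, h1]
    simp
  · simp
  · simp [h2]

lemma pd_G (m i j : Fin 4) (x : V 4) : pd m (fun z => G z i j) x =
    dl m 0 * (2 * dl i 0 * dl j 0 * w x - 6 * dl i 1 * dl j 1 * u x ^ 3)
      + dl m 2 * (2 * dl i 3 * dl j 3 * v x) := by
  simp only [G, Matrix.of_apply]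
  rw [pd_add _ _ _ _ (by fun_prop) (by fun_prop), pd_hh, pd_kk]

noncomputable def Gm (x : V 4) (a i j : Fin 4) : ℝ :=
  (dl a 0 * dl i 0 * dl j 0 - 3 * dl a 1 * (dl i 0 * dl j 1 + dl i 1 * dl j 0)
    + dl a 3 * (dl i 2 * dl j 3 + dl i 3 * dl j 2))
    + 3 * dl a 0 * dl i 1 * dl j 1 * u x ^ 4 - dl a 2 * dl i 3 * dl j 3 * v x

lemma chr_G (x : V 4) (a i j : Fin 4) : chr G x a i j = Gm x a i j := by
  unfold chr
  simp only [pd_G, G_inv, Fin.sum_univ_four]
  have h1 := (u_pos x).ne'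
  have h2 := (v_pos x).ne'
  rw [w_eq]
  fin_cases a <;> fin_cases i <;> fin_cases j <;> simp [Gm, dl] <;> field_simp <;> norm_num

lemma pd_Gm (m a i j : Fin 4) (x : V 4) : pd m (fun z => Gm z a i j) x =
    -24 * dl m 0 * dl a 0 * dl i 1 * dl j 1 * u x ^ 4 - 2 * dl m 2 * dl a 2 * dl i 3 * dl j 3 * v x := by
  unfold Gm
  rw [pd_sub _ _ _ _ (by fun_prop) (by fun_prop), pd_add _ _ _ _ (by fun_prop) (by fun_prop),
    pd_const, pd_cmul _ _ _ _ (by fun_prop), pd_cmul _ _ _ _ (by fun_prop), pd_v, pd_upow]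
  push_cast
  ring

def PP (a c : Fin 4) : ℝ := dl a 0 * dl c 0 + dl a 1 * dl c 1

def QQ (a c : Fin 4) : ℝ := dl a 2 * dl c 2 + dl a 3 * dl c 3

noncomputable def AA (x : V 4) (a b c d : Fin 4) : ℝ := PP a c * hh x d b - PP a d * hh x c b

noncomputable def BB (x : V 4) (a b c d : Fin 4) : ℝ := QQ a c * kk x d b - QQ a d * kk x c b

lemma four (a : Fin 4) : a = 0 ∨ a = 1 ∨ a = 2 ∨ a = 3 := by
  revert a
  decide

lemma riem_aux (x : V 4) (a b c d : Fin 4) :
    (-24 * dl c 0 * dl a 0 * dl d 1 * dl b 1 * u x ^ 4 - 2 * dl c 2 * dl a 2 * dl d 3 * dl b 3 * v x)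
    - (-24 * dl d 0 * dl a 0 * dl c 1 * dl b 1 * u x ^ 4 - 2 * dl d 2 * dl a 2 * dl c 3 * dl b 3 * v x)
    + ∑ l, (Gm x a c l * Gm x l d b - Gm x a d l * Gm x l c b)
      = -12 * u x * AA x a b c d - BB x a b c d := by
  have h1 := uw x
  simp only [Fin.sum_univ_four, AA, BB, hh, kk]
  rcases four a with rfl | rfl | rfl | rfl <;> rcases four b with rfl | rfl | rfl | rfl <;>
    rcases four c with rfl | rfl | rfl | rfl <;> rcases four d with rfl | rfl | rfl | rfl <;>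
    simp only [Gm, dl, PP, QQ, Fin.isValue, Fin.reduceEq, ↓reduceIte, mul_zero, zero_mul, mul_one,
      one_mul, add_zero, zero_add, sub_zero, zero_sub, sub_self] <;>
    first
      | ring1
      | linear_combination (12 : ℝ) * h1
      | linear_combination (-12 : ℝ) * h1

lemma riem_G (x : V 4) (a : Fin 4) (I : Fin 3 → Fin 4) :
    riem G x a I = -12 * u x * AA x a (I 0) (I 1) (I 2) - BB x a (I 0) (I 1) (I 2) := by
  unfold riem
  simp only [chr_G, pd_Gm]
  exact riem_aux x a (I 0) (I 1) (I 2)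

end Pool.Agent.H.MP_9d59e9_gt
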