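import Pool.Agent.H.MP_9d59e9_gt.A

namespace Pool.Agent.H.MP_9d59e9_gt

lemma par_abs (Γ : Fin 4 → Fin 4 → Fin 4 → ℝ) (P h : Fin 4 → Fin 4 → ℝ)
    (dh : Fin 4 → Fin 4 → Fin 4 → ℝ)
    (hP : ∀ i a c, ∑ l, Γ a i l * P l c - ∑ l, Γ l i c * P a l = 0)
    (hh : ∀ i j k, dh i j k - ∑ l, Γ l i j * h l k - ∑ l, Γ l i k * h j l = 0)
    (i a b c d : Fin 4) :
    (P a c * dh i d b - P a d * dh i c b) + ∑ l, Γ a i l * (P l c * h d b - P l d * h c b)
      - ∑ l, Γ l i b * (P a c * h d l - P a d * h c l)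
      - ∑ l, Γ l i c * (P a l * h d b - P a d * h l b)
      - ∑ l, Γ l i d * (P a c * h l b - P a l * h c b) = 0 := by
  have e1 := hP i a c
  have e2 := hP i a d
  have e3 := hh i d b
  have e4 := hh i c b
  simp only [Fin.sum_univ_four] at e1 e2 e3 e4 ⊢
  linear_combination P a c * e3 - P a d * e4 + h d b * e1 - h c b * e2

lemma par_PP (x : V 4) (i a c : Fin 4) :
    ∑ l, Gm x a i l * PP l c - ∑ l, Gm x l i c * PP a l = 0 := by
  simp only [Fin.sum_univ_four]
  rcases four i with rfl | rfl | rfl | rfl <;> rcases four a with rfl | rfl | rfl | rfl <;>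
    rcases four c with rfl | rfl | rfl | rfl <;>
    simp only [Gm, dl, PP, Fin.isValue, Fin.reduceEq, ↓reduceIte, mul_zero, zero_mul, mul_one,
      one_mul, add_zero, zero_add, sub_zero, zero_sub, sub_self]

lemma par_QQ (x : V 4) (i a c : Fin 4) :
    ∑ l, Gm x a i l * QQ l c - ∑ l, Gm x l i c * QQ a l = 0 := by
  simp only [Fin.sum_univ_four]
  rcases four i with rfl | rfl | rfl | rfl <;> rcases four a with rfl | rfl | rfl | rfl <;>
    rcases four c with rfl | rfl | rfl | rfl <;>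
    simp only [Gm, dl, QQ, Fin.isValue, Fin.reduceEq, ↓reduceIte, mul_zero, zero_mul, mul_one,
      one_mul, add_zero, zero_add, sub_zero, zero_sub, sub_self]

lemma par_hh (x : V 4) (i j k : Fin 4) :
    pd i (fun z => hh z j k) x - ∑ l, Gm x l i j * hh x l k - ∑ l, Gm x l i k * hh x j l = 0 := by
  have h1 := uw x
  rw [pd_hh]
  simp only [Fin.sum_univ_four, hh]
  rcases four i with rfl | rfl | rfl | rfl <;> rcases four j with rfl | rfl | rfl | rfl <;>
    rcases four k with rfl | rfl | rfl | rfl <;>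
    simp only [Gm, dl, Fin.isValue, Fin.reduceEq, ↓reduceIte, mul_zero, zero_mul, mul_one,
      one_mul, add_zero, zero_add, sub_zero, zero_sub, sub_self] <;>
    first
      | ring1
      | linear_combination (-3 * u x ^ 3) * h1

lemma par_kk (x : V 4) (i j k : Fin 4) :
    pd i (fun z => kk z j k) x - ∑ l, Gm x l i j * kk x l k - ∑ l, Gm x l i k * kk x j l = 0 := by
  rw [pd_kk]
  simp only [Fin.sum_univ_four, kk]
  rcases four i with rfl | rfl | rfl | rfl <;> rcases four j with rfl | rfl | rfl | rfl <;>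
    rcases four k with rfl | rfl | rfl | rfl <;>
    simp only [Gm, dl, Fin.isValue, Fin.reduceEq, ↓reduceIte, mul_zero, zero_mul, mul_one,
      one_mul, add_zero, zero_add, sub_zero, zero_sub, sub_self] <;>
    ring1

@[fun_prop] lemma df_AA (a b c d : Fin 4) (x : V 4) :
    DifferentiableAt ℝ (fun z => AA z a b c d) x := by
  unfold AA
  fun_prop

@[fun_prop] lemma df_BB (a b c d : Fin 4) (x : V 4) :
    DifferentiableAt ℝ (fun z => BB z a b c d) x := by
  unfold BB
  fun_prop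

lemma par_AA (x : V 4) (i a b c d : Fin 4) :
    pd i (fun z => AA z a b c d) x + ∑ l, Gm x a i l * AA x l b c d
      - ∑ l, Gm x l i b * AA x a l c d - ∑ l, Gm x l i c * AA x a b l d
      - ∑ l, Gm x l i d * AA x a b c l = 0 := by
  unfold AA
  rw [pd_sub _ _ _ _ (by fun_prop) (by fun_prop), pd_cmul _ _ _ _ (by fun_prop),
    pd_cmul _ _ _ _ (by fun_prop)]
  exact par_abs (Gm x) PP (hh x) (fun i j k => pd i (fun z => hh z j k) x) (par_PP x) (par_hh x)
    i a b c d

lemma par_BB (x : V 4) (i a b c d : Fin 4) :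
    pd i (fun z => BB z a b c d) x + ∑ l, Gm x a i l * BB x l b c d
      - ∑ l, Gm x l i b * BB x a l c d - ∑ l, Gm x l i c * BB x a b l d
      - ∑ l, Gm x l i d * BB x a b c l = 0 := by
  unfold BB
  rw [pd_sub _ _ _ _ (by fun_prop) (by fun_prop), pd_cmul _ _ _ _ (by fun_prop),
    pd_cmul _ _ _ _ (by fun_prop)]
  exact par_abs (Gm x) QQ (kk x) (fun i j k => pd i (fun z => kk z j k) x) (par_QQ x) (par_kk x)
    i a b c d

lemma cov1 (x : V 4) (a : Fin 4) (I : Fin 4 → Fin 4) :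
    cov G (riem G) x a I = 24 * dl (I 0) 0 * u x * AA x a (I 1) (I 2) (I 3) := by
  unfold cov
  simp only [riem_G, chr_G, Fin.tail, Fin.sum_univ_three, Function.update_apply, Fin.isValue,
    Fin.reduceEq, ↓reduceIte, Fin.reduceSucc]
  rw [pd_sub _ _ _ _ (by fun_prop) (by fun_prop), pd_mul _ _ _ _ (by fun_prop) (by fun_prop),
    pd_cmul _ _ _ _ (by fun_prop), pd_u]
  have e1 := par_AA x (I 0) a (I 1) (I 2) (I 3)
  have e2 := par_BB x (I 0) a (I 1) (I 2) (I 3)
  simp only [Fin.sum_univ_four] at e1 e2 ⊢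
  linear_combination (-12 * u x) * e1 - e2

lemma hess (x : V 4) (i j : Fin 4) :
    24 * dl j 0 * (-2 * dl i 0 * u x) - ∑ l, Gm x l i j * (24 * dl l 0 * u x)
      = -72 * u x ^ 2 * hh x i j := by
  have h1 := uw x
  simp only [Fin.sum_univ_four, hh]
  rcases four i with rfl | rfl | rfl | rfl <;> rcases four j with rfl | rfl | rfl | rfl <;>
    simp only [Gm, dl, Fin.isValue, Fin.reduceEq, ↓reduceIte, mul_zero, zero_mul, mul_one,
      one_mul, add_zero, zero_add, sub_zero, zero_sub, sub_self] <;>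
    first
      | ring1
      | linear_combination (72 * u x) * h1

lemma cov2 (x : V 4) (a : Fin 4) (I : Fin 5 → Fin 4) :
    cov G (cov G (riem G)) x a I
      = -72 * u x ^ 2 * hh x (I 0) (I 1) * AA x a (I 2) (I 3) (I 4) := by
  rw [cov]
  simp only [cov1, chr_G, Fin.tail, Function.update_apply, Fin.isValue]
  rw [Fin.sum_univ_four (f := fun s => ∑ l, _)]
  simp only [Fin.isValue, Fin.reduceEq, ↓reduceIte, Fin.reduceSucc]
  rw [pd_mul _ _ _ _ (by fun_prop) (by fun_prop), pd_cmul _ _ _ _ (by fun_prop), pd_u]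
  have e1 := par_AA x (I 0) a (I 2) (I 3) (I 4)
  have e2 := hess x (I 0) (I 1)
  simp only [Fin.sum_univ_four] at e1 e2 ⊢
  linear_combination (24 * dl (I 1) 0 * u x) * e1 + AA x a (I 2) (I 3) (I 4) * e2

lemma cov3 (x : V 4) (a : Fin 4) (I : Fin 6 → Fin 4) :
    cov G (cov G (cov G (riem G))) x a I
      = 288 * dl (I 0) 0 * u x ^ 2 * hh x (I 1) (I 2) * AA x a (I 3) (I 4) (I 5) := by
  rw [cov]
  simp only [cov2, chr_G, Fin.tail, Function.update_apply, Fin.isValue]
  rw [Fin.sum_univ_five (f := fun s => ∑ l, _)]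
  simp only [Fin.isValue, Fin.reduceEq, ↓reduceIte, Fin.reduceSucc]
  rw [pd_mul _ _ _ _ (by fun_prop) (by fun_prop), pd_mul _ _ _ _ (by fun_prop) (by fun_prop),
    pd_cmul _ _ _ _ (by fun_prop), pd_upow]
  have e1 := par_AA x (I 0) a (I 3) (I 4) (I 5)
  have e2 := par_hh x (I 0) (I 1) (I 2)
  simp only [Fin.sum_univ_four] at e1 e2 ⊢
  push_cast
  linear_combination (-72 * u x ^ 2 * hh x (I 1) (I 2)) * e1
    + (-72 * u x ^ 2 * AA x a (I 3) (I 4) (I 5)) * e2

theorem main : ∃ (g : Met 4) (t : V 4 → Fin 4 → ℝ),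
    (∀ i j, ContDiff ℝ (⊤ : ℕ∞) (fun x => g x i j)) ∧ (∀ x, (g x).PosDef) ∧
    (∀ i, ContDiff ℝ (⊤ : ℕ∞) (fun x => t x i)) ∧
    (∀ x a (I : Fin 6 → Fin 4), cov g (cov g (cov g (riem g))) x a I
      + t x (I 0) * cov g (cov g (riem g)) x a (Fin.tail I) = 0) ∧
    (∀ x, (Matrix.of fun b d => -∑ a, riem g x a ![b, a, d]).PosDef) ∧
    ∀ x, ¬ ∃ σ : Fin 4 → ℝ, ∀ a (I : Fin 4 → Fin 4),
      cov g (riem g) x a I = σ (I 0) * riem g x a (Fin.tail I) := by
  refine ⟨G, fun _ i => 4 * dl i 0, ?_, ?_, ?_, ?_, ?_, ?_⟩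
  · intro i j
    simp only [G, Matrix.of_apply, hh, kk]
    fun_prop
  · intro x
    rw [G_diag, Matrix.posDef_diagonal_iff]
    intro i
    have := u_pos x
    have := w_pos x
    have := v_pos x
    fin_cases i <;> simp <;> positivity
  · intro i
    fun_prop
  · intro x a I
    rw [cov3, cov2]
    simp only [Fin.tail, Fin.isValue, Fin.reduceSucc]
    ring
  · intro x
    have h1 := uw x
    have : (Matrix.of fun b d => -∑ a, riem G x a ![b, a, d])
        = Matrix.diagonal ![12, 12 * u x ^ 4, 1, v x] := by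
      ext b d
      simp only [Matrix.of_apply, riem_G, Fin.sum_univ_four, AA, BB, hh, kk]
      fin_cases b <;> fin_cases d <;> simp [dl, PP, QQ] <;>
        first
          | ring1
          | linear_combination (12 : ℝ) * h1
    rw [this, Matrix.posDef_diagonal_iff]
    intro i
    have := u_pos x
    have := v_pos x
    fin_cases i <;> simp <;> positivity
  · rintro x ⟨σ, hσ⟩
    have e1 := hσ 2 ![0, 3, 2, 3]
    have e2 := hσ 0 ![0, 1, 0, 1]
    rw [cov1, riem_G] at e1 e2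
    have hu := u_pos x
    have hv := v_pos x
    simp [Fin.tail, AA, BB, hh, kk, dl, PP, QQ, hv.ne'] at e1 e2
    rw [e1] at e2
    simp [hu.ne'] at e2

end Pool.Agent.H.MP_9d59e9_gt
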